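import Pool.Agent.N928.FG.Stm

/-!
# Project FG (helper928), MP_5501f7_pr, leaf DLOG: D(u) is of order (1 - u) log (1 / (1 - u))
-/

set_option autoImplicit false

namespace Pool.Agent.N691.FG

open Pool.Agent.N928.FG

namespace DLOG

section
variable (a : ℕ → ℝ) (ha : ∀ n, 0 ≤ a n) (c C : ℝ) (hc : 0 < c) (hC : 0 < C)
  (hb : ∀ n : ℕ, 1 ≤ n → c / (n : ℝ) ^ 3 ≤ a n ∧ a n ≤ C / (n : ℝ) ^ 3)

include ha hb hC

lemma na_le (n : ℕ) : (n : ℝ) * a n ≤ C * ((n : ℝ) ^ 2)⁻¹ := by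
  rcases Nat.eq_zero_or_pos n with rfl | hn
  · simp
  · have h1 := (hb n hn).2
    have hn0 : (0 : ℝ) < n := by exact_mod_cast hn
    calc (n : ℝ) * a n ≤ n * (C / (n : ℝ) ^ 3) := mul_le_mul_of_nonneg_left h1 hn0.le
      _ = C * ((n : ℝ) ^ 2)⁻¹ := by field_simp

lemma summ_na : Summable fun n : ℕ => (n : ℝ) * a n := by
  have h1 : Summable fun n : ℕ => C * ((n : ℝ) ^ 2)⁻¹ :=
    (Real.summable_nat_pow_inv.2 (by norm_num)).mul_left C
  exact Summable.of_nonneg_of_le (fun n => mul_nonneg (Nat.cast_nonneg n) (ha n))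
    (fun n => na_le a ha c C hC hb n) h1

lemma summ_a : Summable a := by
  rw [← summable_nat_add_iff 1]
  have h1 := (summable_nat_add_iff 1).2 (summ_na a ha c C hC hb)
  refine Summable.of_nonneg_of_le (fun n => ha _) (fun n => ?_) h1
  have h2 := ha (n + 1)
  have h3 : (1 : ℝ) ≤ ((n + 1 : ℕ) : ℝ) := by exact_mod_cast Nat.succ_le_succ (Nat.zero_le n)
  calc a (n + 1) = 1 * a (n + 1) := (one_mul _).symm
    _ ≤ ((n + 1 : ℕ) : ℝ) * a (n + 1) := mul_le_mul_of_nonneg_right h3 h2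

/-- upper bound of the sum -/
lemma S_le (u : ℝ) (hu0 : 0 ≤ u) (hu1 : u < 1) (hx : 1 - u ≤ 1 / 2) :
    ∑' n : ℕ, (n : ℝ) * a n * (1 - u ^ n) ≤ C * ((1 - u) * (3 + Real.log (1 / (1 - u)))) := by
  set x : ℝ := 1 - u with hxdef
  have hx0 : 0 < x := by linarith
  have hpow : ∀ n : ℕ, u ^ n ≤ 1 := fun n => pow_le_one₀ hu0 hu1.le
  have hpow0 : ∀ n : ℕ, 0 ≤ u ^ n := fun n => pow_nonneg hu0 n
  have hbern : ∀ n : ℕ, 1 - u ^ n ≤ n * x := by
    intro n
    have := one_add_mul_le_pow (a := -x) (by linarith) n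
    have e : 1 + -x = u := by rw [hxdef]; ring
    rw [e] at this
    linarith
  have hterm : ∀ n : ℕ, 0 ≤ (n : ℝ) * a n * (1 - u ^ n) := fun n =>
    mul_nonneg (mul_nonneg (Nat.cast_nonneg n) (ha n)) (by linarith [hpow n])
  have ht1 : ∀ n : ℕ, (n : ℝ) * a n * (1 - u ^ n) ≤ C * ((n : ℝ) ^ 2)⁻¹ := by
    intro n
    refine le_trans ?_ (na_le a ha c C hC hb n)
    have h1 : 0 ≤ (n : ℝ) * a n := mul_nonneg (Nat.cast_nonneg n) (ha n)
    have h2 : 1 - u ^ n ≤ 1 := by linarith [hpow0 n]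
    nlinarith
  have ht2 : ∀ n : ℕ, (n : ℝ) * a n * (1 - u ^ n) ≤ C * x * (n : ℝ)⁻¹ := by
    intro n
    rcases Nat.eq_zero_or_pos n with rfl | hn
    · simp
    have hn0 : (0 : ℝ) < n := by exact_mod_cast hn
    calc (n : ℝ) * a n * (1 - u ^ n) ≤ (C * ((n : ℝ) ^ 2)⁻¹) * (n * x) := by
          apply mul_le_mul (na_le a ha c C hC hb n) (hbern n) (by linarith [hpow n])
          positivity
      _ = C * x * (n : ℝ)⁻¹ := by field_simp
  set N : ℕ := ⌊1 / x⌋₊ with hN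
  have hN1 : (N : ℝ) ≤ 1 / x := Nat.floor_le (by positivity)
  have hN2 : 1 / x < N + 1 := Nat.lt_floor_add_one _
  have hN3 : 1 ≤ N := by
    rw [hN]
    apply Nat.le_floor
    rw [Nat.cast_one, le_div_iff₀ hx0]
    linarith
  apply Real.tsum_le_of_sum_range_le hterm
  intro m
  rw [← Finset.sum_filter_add_sum_filter_not (Finset.range m) (fun n => n ≤ N)]
  have hA : ∑ n ∈ (Finset.range m).filter (fun n => n ≤ N), (n : ℝ) * a n * (1 - u ^ n) ≤
      C * x * (1 + Real.log (1 / x)) := by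
    calc ∑ n ∈ (Finset.range m).filter (fun n => n ≤ N), (n : ℝ) * a n * (1 - u ^ n)
        ≤ ∑ n ∈ Finset.range (N + 1), (n : ℝ) * a n * (1 - u ^ n) := by
          apply Finset.sum_le_sum_of_subset_of_nonneg
          · intro n hn
            rw [Finset.mem_filter] at hn
            rw [Finset.mem_range]
            omega
          · intro n _ _
            exact hterm n
      _ ≤ ∑ n ∈ Finset.range (N + 1), C * x * (n : ℝ)⁻¹ := Finset.sum_le_sum fun n _ => ht2 n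
      _ = C * x * ∑ n ∈ Finset.range N, ((n + 1 : ℕ) : ℝ)⁻¹ := by
          rw [← Finset.mul_sum, Finset.sum_range_succ']
          simp
      _ = C * x * ((harmonic N : ℚ) : ℝ) := by
          rw [harmonic]
          push_cast
          rfl
      _ ≤ C * x * (1 + Real.log (1 / x)) := by
          apply mul_le_mul_of_nonneg_left _ (by positivity)
          have h1 := harmonic_le_one_add_log N
          have h2 : Real.log N ≤ Real.log (1 / x) :=
            Real.log_le_log (by exact_mod_cast hN3) hN1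
          linarith
  have hB : ∑ n ∈ (Finset.range m).filter (fun n => ¬ n ≤ N), (n : ℝ) * a n * (1 - u ^ n) ≤
      C * (2 * x) := by
    calc ∑ n ∈ (Finset.range m).filter (fun n => ¬ n ≤ N), (n : ℝ) * a n * (1 - u ^ n)
        ≤ ∑ n ∈ Finset.Ioo N m, C * ((n : ℝ) ^ 2)⁻¹ := by
          have e : (Finset.range m).filter (fun n => ¬ n ≤ N) = Finset.Ioo N m := by
            ext n
            rw [Finset.mem_filter, Finset.mem_range, Finset.mem_Ioo]
            omega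
          rw [e]
          exact Finset.sum_le_sum fun n _ => ht1 n
      _ = C * ∑ n ∈ Finset.Ioo N m, ((n : ℝ) ^ 2)⁻¹ := by rw [Finset.mul_sum]
      _ ≤ C * (2 / (N + 1)) := mul_le_mul_of_nonneg_left (sum_Ioo_inv_sq_le N m) hC.le
      _ ≤ C * (2 * x) := by
          apply mul_le_mul_of_nonneg_left _ hC.le
          rw [div_le_iff₀ (by positivity)]
          have : 1 < (N + 1) * x := by
            rwa [div_lt_iff₀ hx0] at hN2
          linarith
  calc _ ≤ C * x * (1 + Real.log (1 / x)) + C * (2 * x) := add_le_add hA hB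
    _ = C * (x * (3 + Real.log (1 / x))) := by ring

include hc in
/-- lower bound of the sum -/
lemma le_S (u : ℝ) (hu0 : 0 < u) (hu1 : u < 1) :
    c / 2 * ((1 - u) * Real.log (1 / (1 - u))) ≤ ∑' n : ℕ, (n : ℝ) * a n * (1 - u ^ n) := by
  set x : ℝ := 1 - u with hxdef
  have hx0 : 0 < x := by linarith
  have hpow : ∀ n : ℕ, u ^ n ≤ 1 := fun n => pow_le_one₀ hu0.le hu1.le
  have hpow0 : ∀ n : ℕ, 0 < u ^ n := fun n => pow_pos hu0 n
  have hterm : ∀ n : ℕ, 0 ≤ (n : ℝ) * a n * (1 - u ^ n) := fun n =>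
    mul_nonneg (mul_nonneg (Nat.cast_nonneg n) (ha n)) (by linarith [hpow n])
  have hsum : Summable fun n : ℕ => (n : ℝ) * a n * (1 - u ^ n) := by
    refine Summable.of_nonneg_of_le hterm (fun n => ?_) (summ_na a ha c C hC hb)
    have h1 : 0 ≤ (n : ℝ) * a n := mul_nonneg (Nat.cast_nonneg n) (ha n)
    have h2 : 1 - u ^ n ≤ 1 := by linarith [hpow0 n]
    nlinarith
  set N : ℕ := ⌊1 / x⌋₊ with hN
  have hN1 : (N : ℝ) ≤ 1 / x := Nat.floor_le (by positivity)
  have hN2 : 1 / x < N + 1 := Nat.lt_floor_add_one _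
  have hlow : ∀ n : ℕ, n ≤ N → (n : ℝ) * x / 2 ≤ 1 - u ^ n := by
    intro n hn
    have hy1 : (n : ℝ) * x ≤ 1 := by
      have h1 : (n : ℝ) ≤ 1 / x := le_trans (by exact_mod_cast hn) hN1
      rwa [le_div_iff₀ hx0] at h1
    have hy0 : 0 ≤ (n : ℝ) * x := by positivity
    have hbern := one_add_mul_le_pow (a := u⁻¹ - 1) (by
      have : 0 < u⁻¹ := by positivity
      linarith) n
    have e : 1 + (u⁻¹ - 1) = u⁻¹ := by ring
    rw [e, inv_pow] at hbern
    have hxu : x ≤ u⁻¹ - 1 := by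
      have : u⁻¹ - 1 = x * u⁻¹ := by
        rw [hxdef]; field_simp
      rw [this]
      have h1 : 1 ≤ u⁻¹ := (one_le_inv₀ hu0).2 hu1.le
      nlinarith
    have h1 : 1 + (n : ℝ) * x ≤ (u ^ n)⁻¹ := by
      have : (n : ℝ) * x ≤ n * (u⁻¹ - 1) := mul_le_mul_of_nonneg_left hxu (Nat.cast_nonneg n)
      linarith
    have h2 : u ^ n * (1 + (n : ℝ) * x) ≤ 1 := by
      have := mul_le_mul_of_nonneg_left h1 (hpow0 n).le
      rwa [mul_inv_cancel₀ (hpow0 n).ne'] at this
    -- `u ^ n ≤ 1 / (1 + y) ≤ 1 - y / 2`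
    have h3 : 1 ≤ (1 - (n : ℝ) * x / 2) * (1 + (n : ℝ) * x) := by nlinarith
    have h4 : u ^ n * (1 + (n : ℝ) * x) ≤ (1 - (n : ℝ) * x / 2) * (1 + (n : ℝ) * x) := h2.trans h3
    have h5 : u ^ n ≤ 1 - (n : ℝ) * x / 2 := le_of_mul_le_mul_right h4 (by positivity)
    linarith
  have hterm2 : ∀ n : ℕ, n ≤ N → c * x / 2 * (n : ℝ)⁻¹ ≤ (n : ℝ) * a n * (1 - u ^ n) := by
    intro n hn
    rcases Nat.eq_zero_or_pos n with rfl | hn0
    · simp
    have hn1 : (0 : ℝ) < n := by exact_mod_cast hn0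
    have h1 := (hb n hn0).1
    have h2 : c * ((n : ℝ) ^ 2)⁻¹ ≤ n * a n := by
      calc c * ((n : ℝ) ^ 2)⁻¹ = n * (c / (n : ℝ) ^ 3) := by field_simp
        _ ≤ n * a n := mul_le_mul_of_nonneg_left h1 hn1.le
    calc c * x / 2 * (n : ℝ)⁻¹ = (c * ((n : ℝ) ^ 2)⁻¹) * ((n : ℝ) * x / 2) := by field_simp
      _ ≤ (n : ℝ) * a n * (1 - u ^ n) := by
          apply mul_le_mul h2 (hlow n hn) (by positivity)
          exact mul_nonneg hn1.le (ha n)
  calc c / 2 * (x * Real.log (1 / x)) ≤ c * x / 2 * Real.log ((N + 1 : ℕ) : ℝ) := by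
        have h1 : Real.log (1 / x) ≤ Real.log ((N + 1 : ℕ) : ℝ) := by
          apply Real.log_le_log (by positivity)
          push_cast
          exact hN2.le
        have := mul_le_mul_of_nonneg_left h1 (show 0 ≤ c * x / 2 by positivity)
        linarith
    _ ≤ c * x / 2 * ((harmonic N : ℚ) : ℝ) :=
        mul_le_mul_of_nonneg_left (log_add_one_le_harmonic N) (by positivity)
    _ = ∑ n ∈ Finset.range (N + 1), c * x / 2 * (n : ℝ)⁻¹ := by
        rw [← Finset.mul_sum, Finset.sum_range_succ', harmonic]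
        push_cast
        simp
    _ ≤ ∑ n ∈ Finset.range (N + 1), (n : ℝ) * a n * (1 - u ^ n) := by
        apply Finset.sum_le_sum
        intro n hn
        rw [Finset.mem_range] at hn
        exact hterm2 n (by omega)
    _ ≤ ∑' n : ℕ, (n : ℝ) * a n * (1 - u ^ n) := hsum.sum_le_tsum _ (fun n _ => hterm n)

include hc in
/-- the two-sided bound -/
theorem main (hD : (2 * (∑' n : ℕ, a n * (1 : ℝ) ^ n) - 1) ^ 2 +
      (2 * (∑' n : ℕ, a n * (1 : ℝ) ^ n) - 1) - 2 * ∑' n : ℕ, (n : ℝ) * a n * (1 : ℝ) ^ n = 0) :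
    ∃ c' C' u₀ : ℝ, 0 < c' ∧ 0 < C' ∧ 0 < u₀ ∧ u₀ < 1 ∧ ∀ u : ℝ, u₀ ≤ u → u < 1 →
      c' * ((1 - u) * Real.log (1 / (1 - u))) ≤ (2 * (∑' n : ℕ, a n * u ^ n) - 1) ^ 2 +
        (2 * (∑' n : ℕ, a n * u ^ n) - 1) - 2 * ∑' n : ℕ, (n : ℝ) * a n * u ^ n ∧
      (2 * (∑' n : ℕ, a n * u ^ n) - 1) ^ 2 +
        (2 * (∑' n : ℕ, a n * u ^ n) - 1) - 2 * ∑' n : ℕ, (n : ℝ) * a n * u ^ n ≤
      C' * ((1 - u) * Real.log (1 / (1 - u))) := by
  simp only [one_pow, mul_one] at hD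
  have hsna := summ_na a ha c C hC hb
  have hsa := summ_a a ha c C hC hb
  set g1 : ℝ := ∑' n : ℕ, a n with hg1
  set h1 : ℝ := ∑' n : ℕ, (n : ℝ) * a n with hh1
  have hg10 : 0 ≤ g1 := tsum_nonneg ha
  have hh10 : 0 ≤ h1 := tsum_nonneg fun n => mul_nonneg (Nat.cast_nonneg n) (ha n)
  set K : ℝ := 2 * h1 * (4 * g1 + 1) with hK
  have hK0 : 0 ≤ K := by positivity
  refine ⟨c / 2, 8 * C + K, 1 - Real.exp (-(2 * K / c + 1)), by positivity, by positivity, ?_, ?_, ?_⟩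
  · have : Real.exp (-(2 * K / c + 1)) < 1 := by
      rw [Real.exp_lt_one_iff]
      have : 0 ≤ 2 * K / c := by positivity
      linarith
    linarith
  · have := Real.exp_pos (-(2 * K / c + 1))
    linarith
  intro u hu hu1
  set x : ℝ := 1 - u with hxdef
  have hx0 : 0 < x := by linarith
  have hxe : x ≤ Real.exp (-(2 * K / c + 1)) := by linarith
  have hlog : 2 * K / c + 1 ≤ Real.log (1 / x) := by
    rw [one_div, Real.log_inv]
    have := Real.log_le_log hx0 hxe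
    rw [Real.log_exp] at this
    linarith
  have hKc : 0 ≤ 2 * K / c := by positivity
  have hlog1 : 1 ≤ Real.log (1 / x) := by linarith
  have hxhalf : x ≤ 1 / 2 := by
    have h2 : Real.exp (-(2 * K / c + 1)) ≤ Real.exp (-1) := Real.exp_le_exp.2 (by linarith)
    have h3 : Real.exp (-1) ≤ 1 / 2 := by
      rw [Real.exp_neg, one_div]
      apply inv_anti₀ (by norm_num)
      have := Real.add_one_le_exp (1 : ℝ)
      linarith
    linarith
  have hu0 : 0 < u := by linarith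
  have hpow : ∀ n : ℕ, u ^ n ≤ 1 := fun n => pow_le_one₀ hu0.le hu1.le
  have hpow0 : ∀ n : ℕ, 0 ≤ u ^ n := fun n => pow_nonneg hu0.le n
  have hsau : Summable fun n : ℕ => a n * u ^ n :=
    Summable.of_nonneg_of_le (fun n => mul_nonneg (ha n) (hpow0 n))
      (fun n => by nlinarith [ha n, hpow n]) hsa
  have hsnau : Summable fun n : ℕ => (n : ℝ) * a n * u ^ n :=
    Summable.of_nonneg_of_le
      (fun n => mul_nonneg (mul_nonneg (Nat.cast_nonneg n) (ha n)) (hpow0 n))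
      (fun n => by
        have := mul_nonneg (Nat.cast_nonneg (α := ℝ) n) (ha n)
        nlinarith [hpow n]) hsna
  set gu : ℝ := ∑' n : ℕ, a n * u ^ n with hgu
  have hgu0 : 0 ≤ gu := tsum_nonneg fun n => mul_nonneg (ha n) (hpow0 n)
  have hS : ∑' n : ℕ, (n : ℝ) * a n * (1 - u ^ n) = h1 - ∑' n : ℕ, (n : ℝ) * a n * u ^ n := by
    rw [hh1, ← hsna.tsum_sub hsnau]
    apply tsum_congr
    intro n
    ring
  have hT : g1 - gu = ∑' n : ℕ, a n * (1 - u ^ n) := by
    rw [hg1, hgu, ← hsa.tsum_sub hsau]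
    apply tsum_congr
    intro n
    ring
  have hT0 : 0 ≤ g1 - gu := by
    rw [hT]
    exact tsum_nonneg fun n => mul_nonneg (ha n) (by linarith [hpow n])
  have hsT : Summable fun n : ℕ => a n * (1 - u ^ n) := by
    refine (hsa.sub hsau).congr fun n => ?_
    ring
  have hT1 : g1 - gu ≤ x * h1 := by
    rw [hT, hh1, ← tsum_mul_left]
    apply hsT.tsum_le_tsum _ (hsna.mul_left x)
    intro n
    have hbern := one_add_mul_le_pow (a := -x) (by linarith) n
    have e : 1 + -x = u := by rw [hxdef]; ring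
    rw [e] at hbern
    have h2 : 1 - u ^ n ≤ n * x := by linarith
    calc a n * (1 - u ^ n) ≤ a n * (n * x) := mul_le_mul_of_nonneg_left h2 (ha n)
      _ = x * (n * a n) := by ring
  have hSu := S_le a ha c C hC hb u hu0.le hu1 hxhalf
  have hSl := le_S a ha c C hc hC hb u hu0 hu1
  rw [hS] at hSu hSl
  -- the difference
  have hdiff : (2 * gu - 1) ^ 2 + (2 * gu - 1) - 2 * ∑' n : ℕ, (n : ℝ) * a n * u ^ n =
      2 * (h1 - ∑' n : ℕ, (n : ℝ) * a n * u ^ n) - 2 * (g1 - gu) * (2 * g1 + 2 * gu - 1) := by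
    linear_combination hD
  have herr : |2 * (g1 - gu) * (2 * g1 + 2 * gu - 1)| ≤ K * x := by
    rw [abs_mul, abs_of_nonneg (by positivity : 0 ≤ 2 * (g1 - gu))]
    have h2 : |2 * g1 + 2 * gu - 1| ≤ 4 * g1 + 1 := by
      rw [abs_le]
      constructor
      · linarith
      · linarith
    calc 2 * (g1 - gu) * |2 * g1 + 2 * gu - 1| ≤ 2 * (x * h1) * (4 * g1 + 1) := by
          apply mul_le_mul (by linarith) h2 (abs_nonneg _) (by positivity)
      _ = K * x := by rw [hK]; ring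
  obtain ⟨he1, he2⟩ := abs_le.1 herr
  rw [hdiff]
  have hxl : x ≤ x * Real.log (1 / x) := by nlinarith
  constructor
  · have hKx : K * x ≤ c / 2 * (x * Real.log (1 / x)) := by
      have h2 : 2 * K / c ≤ Real.log (1 / x) := by linarith
      rw [div_le_iff₀ hc] at h2
      nlinarith
    linarith
  · have h2 : C * (x * (3 + Real.log (1 / x))) = 3 * (C * x) + C * (x * Real.log (1 / x)) := by ring
    have h3 : C * x ≤ C * (x * Real.log (1 / x)) := mul_le_mul_of_nonneg_left hxl hC.le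
    have h4 : K * x ≤ K * (x * Real.log (1 / x)) := mul_le_mul_of_nonneg_left hxl hK0
    linarith

end

end DLOG

lemma an_nonneg (h : S_S1) (β : ℝ) (hβ : 0 < β) (hβ1 : β ≤ 1 / 2) (n : ℕ) : 0 ≤ an β n := by
  unfold an
  apply Finset.prod_nonneg
  intro i _
  have h1 : 0 < bet β i ∧ bet β i ≤ 1 / 2 := by
    unfold bet
    split_ifs
    · constructor <;> norm_num
    · exact ⟨hβ, hβ1⟩
  exact (h (bet β i) h1.1 h1.2 n 0).1

/-- DLOG -/
theorem t_DLOG : S_AB → S_S1 → S_DLOG := by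
  intro hAB hS1 β hβ hβ1 hD
  obtain ⟨c, C, hc, hC, hb⟩ := hAB.1 β hβ hβ1
  exact DLOG.main (an β) (an_nonneg hS1 β hβ hβ1) c C hc hC hb hD

end Pool.Agent.N691.FG
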